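import Mathlib
import Pool.Agent.Helper581_DML.F3

/-!
# Return sets of split polynomial maps of equal degree, not a power of the characteristic

For polynomials `f`, `g` of the same degree `d ≥ 2` over a field of characteristic `p`, `d` not a
power of `p` (it may be divisible by `p`), every starting point and every plane curve `h = 0`, the
return set is the union of finitely many infinite arithmetic progressions and a finite set (no
`p`-sets occur). For `d` a power of `p` infinite `p`-sets do occur.
-/

set_option autoImplicit false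

namespace Pool.Agent.Results.MP_6ac234_nt.EqualDegreeNotPPower

theorem result {K : Type*} [Field K] (p : ℕ) (hp : p.Prime) (hK : CharP K p)
    (f g : Polynomial K) (d : ℕ) (hfd : f.natDegree = d) (hgd : g.natDegree = d) (hd2 : 2 ≤ d)
    (hpd : ∀ a : ℕ, d ≠ p ^ a) (γ : K × K) (h : MvPolynomial (Fin 2) K) (hh : h ≠ 0) :
    ∃ (S : Finset (ℕ × ℕ)) (T : Finset ℕ), (∀ q ∈ S, 0 < q.1) ∧
      {n : ℕ | MvPolynomial.eval
          ![(fun x => Polynomial.eval x f)^[n] γ.1, (fun y => Polynomial.eval y g)^[n] γ.2] h = 0} =
        {n : ℕ | (∃ q ∈ S, ∃ k : ℕ, n = q.1 * k + q.2) ∨ n ∈ T} :=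
  Pool.Agent.Helper581_DML.final p hp hK f g d hfd hgd hd2 hpd γ h hh

end Pool.Agent.Results.MP_6ac234_nt.EqualDegreeNotPPower
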